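import Pool.Agent.H77.PUC.FCx

/-! # CHA: analytic coordinates are approximable in each chart -/

universe u

namespace PUC

open Polynomial Filter Topology Metric

theorem CHA_inv_close {K : Type*} [NontriviallyNormedField K] [IsUltrametricDist K] {u v : K}
    {ε : ℝ} (hu : 1 ≤ ‖u‖) (hε : ε < 1) (h : ‖u - v‖ ≤ ε) :
    v ≠ 0 ∧ ‖v‖ = ‖u‖ ∧ ‖u⁻¹ - v⁻¹‖ ≤ ε := by
  have hv : ‖v‖ = ‖u‖ := by
    have h1 : ‖v - u‖ < ‖u‖ := by
      rw [norm_sub_rev]; linarith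
    have h2 : v = u + (v - u) := by ring
    rw [h2]
    rw [IsUltrametricDist.norm_add_eq_max_of_norm_ne_norm h1.ne']
    exact max_eq_left h1.le
  have hu0 : u ≠ 0 := by
    rintro rfl; rw [norm_zero] at hu; linarith
  have hv0 : v ≠ 0 := by
    rintro rfl; rw [norm_zero] at hv; linarith
  refine ⟨hv0, hv, ?_⟩
  have e : u⁻¹ - v⁻¹ = - (u - v) * (u⁻¹ * v⁻¹) := by
    field_simp
    ring
  rw [e, norm_mul, norm_neg, norm_mul, norm_inv, norm_inv, hv]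
  have h3 : ‖u‖⁻¹ * ‖u‖⁻¹ ≤ 1 := by
    have : ‖u‖⁻¹ ≤ 1 := inv_le_one_of_one_le₀ hu
    have h0 : 0 ≤ ‖u‖⁻¹ := by positivity
    nlinarith
  have h4 : 0 ≤ ε := (norm_nonneg _).trans h
  calc ‖u - v‖ * (‖u‖⁻¹ * ‖u‖⁻¹) ≤ ε * 1 := by gcongr
    _ = ε := mul_one _

theorem sCha : SCha.{u} := by
  intro K Ω E _ _ _ _ _ _ Φ f ε hε hf A hA
  classical
  by_cases hf0 : f = 0
  · subst hf0
    refine FCx_congr ?_ (FCx_const A hε.le 0)
    intro P _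
    simp
  obtain ⟨n, T, g, hc, h⟩ := hf (min ε (1 / 2)) (lt_min hε (by norm_num))
  refine ⟨n, T, fun i => if (∀ P ∈ Dom K (T i),
            f ∈ (Φ P).ring ∧ g i ∈ P.ring ∧ ‖(Φ P).val f - P.val (g i)‖ ≤ min ε (1 / 2)) then g i
            else (g i)⁻¹, fun P _ => hc P, ?_⟩
  intro i P hP hi
  by_cases hd : ∀ P ∈ Dom K (T i),
            f ∈ (Φ P).ring ∧ g i ∈ P.ring ∧ ‖(Φ P).val f - P.val (g i)‖ ≤ min ε (1 / 2)
  · simp only [if_pos hd]
    obtain ⟨-, h2, h3⟩ := hd P hi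
    exact ⟨h2, h3.trans (min_le_left _ _)⟩
  · simp only [if_neg hd]
    obtain ⟨h1, h2, h3⟩ := ((h i).resolve_left hd) P hi
    obtain ⟨h4, h5⟩ := hA P hP
    have hm := (Φ P).val_mul h4 h1
    rw [mul_inv_cancel₀ hf0, (Φ P).val_one] at hm
    have hu : (Φ P).val f = ((Φ P).val f⁻¹)⁻¹ := eq_inv_of_mul_eq_one_left hm.symm
    have hu1 : 1 ≤ ‖(Φ P).val f⁻¹‖ := by
      have h6 := congrArg norm hm
      rw [norm_one, norm_mul] at h6
      by_contra hlt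
      push Not at hlt
      nlinarith [norm_nonneg ((Φ P).val f), norm_nonneg ((Φ P).val f⁻¹)]
    obtain ⟨h7, h8, h9⟩ := CHA_inv_close hu1
      (lt_of_le_of_lt (min_le_right ε (1 / 2)) (by norm_num)) h3
    refine ⟨P.inv_mem_of_val h2 h7, ?_⟩
    rw [P.val_inv h2 h7, hu]
    exact h9.trans (min_le_left _ _)

end PUC
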