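import Pool.Agent.H77.PUC.StmtsE

universe u

namespace PUC

open Polynomial

section
variable {K L : Type u} [Field K] [Field L] [Algebra K L] (P : Place K L)

theorem EVN_inv_nonunit {y : L} (hy : y ∉ P.ring) : y⁻¹ ∈ P.ring.nonunits := by
  rw [ValuationSubring.mem_nonunits_iff_or, inv_inv]
  exact Or.inr hy

theorem EVN_one_not : (1 : L) ∉ P.ring.nonunits := by
  intro h
  have := P.val_eq_zero_of_nonunit h
  simp at this

theorem EVN_mul_nonunits {f g : L} (hf : f ∈ P.ring) (hg : g ∈ P.ring.nonunits) :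
    f * g ∈ P.ring.nonunits := by
  rw [mul_comm]; exact P.nonunits_mul hg hf

theorem EVN_int {y a b : L} (ha : a ∈ P.ring) (hb : b ∈ P.ring) (h : y ^ 2 + a * y = b) :
    y ∈ P.ring := by
  by_contra hy
  have h1 := EVN_inv_nonunit P hy
  have hy0 : y ≠ 0 := by rintro rfl; exact hy P.ring.zero_mem
  have h2 : (1 : L) = (b * y⁻¹) * y⁻¹ - a * y⁻¹ := by
    field_simp
    linear_combination h
  apply EVN_one_not P
  rw [h2]
  apply (P.ring.nonunits).sub_mem
  · exact EVN_mul_nonunits P (P.ring.mul_mem _ _ hb (P.nonunits_mem h1)) h1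
  · exact EVN_mul_nonunits P ha h1

theorem EVN_der (D' : Derivation ℤ L L) (hD : ∀ f ∈ P.ring, D' f ∈ P.ring) {w a u : L}
    (hw : w = a ^ 2 * u) (ha : a ∈ P.ring.nonunits) (hu : u ∈ P.ring) :
    D' w ∈ P.ring.nonunits := by
  have haR := P.nonunits_mem ha
  have h1 : D' w = (u * D' a * 2) * a + (D' u * a) * a := by
    rw [hw, sq, Derivation.leibniz, Derivation.leibniz]
    simp only [smul_eq_mul]
    ring
  rw [h1]
  have h2 : (2 : L) ∈ P.ring := by
    have := P.alg_mem (2 : K)
    rwa [map_ofNat] at this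
  apply (P.ring.nonunits).add_mem
  · exact EVN_mul_nonunits P (P.ring.mul_mem _ _ (P.ring.mul_mem _ _ hu (hD _ haR)) h2) ha
  · exact EVN_mul_nonunits P (P.ring.mul_mem _ _ (hD _ hu) haR) ha

end

theorem sEvn : SEvn.{u} := by
  intro K L _ _ _ _ _ g s ξ υ hg hξ0 heq D D' hDD hD
  constructor
  · intro P hξ hroot hder
    set e := P.val ξ with he
    have hυ : υ ∈ P.ring := by
      apply EVN_int P P.ring.one_mem (b := ξ ^ (2 * g + 1) + algebraMap K L s * ξ)
      · exact P.ring.add_mem _ _ (P.pow_mem hξ _) (P.ring.mul_mem _ _ (P.alg_mem _) hξ)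
      · rw [one_mul]; exact heq
    set Q : K[X] := 1 + C (4 * s) * X + C 4 * X ^ (2 * g + 1) with hQ
    have hQe : Q.eval e = 0 := by
      rw [← hroot]; simp [hQ]
    have hQd : (derivative Q).eval e = 4 * s + 4 * (2 * g + 1 : K) * e ^ (2 * g) := by
      simp [hQ]
      ring
    obtain ⟨q, hq⟩ := dvd_iff_isRoot.2 hQe
    have hqe : q.eval e ≠ 0 := by
      have : (derivative Q).eval e = q.eval e := by
        rw [hq]
        simp
      rw [← this, hQd]
      exact hder
    have hQξ : aeval ξ Q = (2 * υ + 1) ^ 2 := by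
      have h4 : algebraMap K L 4 = 4 := map_ofNat (algebraMap K L) 4
      simp only [hQ, map_add, map_one, map_mul, aeval_C, aeval_X, map_pow, h4]
      linear_combination (-4 : L) * heq
    have hfac : (ξ - algebraMap K L e) * aeval ξ q = (2 * υ + 1) ^ 2 := by
      rw [← hQξ, hq]
      simp
    have hqmem := P.aeval_mem hξ q
    have hqval : P.val (aeval ξ q) ≠ 0 := by rw [P.val_aeval hξ]; exact hqe
    have hqinv := P.inv_mem_of_val hqmem hqval
    have hq0 : aeval ξ q ≠ 0 := by
      intro h0; rw [h0] at hqval; simp at hqval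
    have h2 : (2 : L) ∈ P.ring := by
      have := P.alg_mem (2 : K)
      rwa [map_ofNat] at this
    have haR : 2 * υ + 1 ∈ P.ring := P.ring.add_mem _ _ (P.ring.mul_mem _ _ h2 hυ) P.ring.one_mem
    have ha : 2 * υ + 1 ∈ P.ring.nonunits := by
      apply P.nonunit_of_val_eq_zero haR
      have h3 : P.val (2 * υ + 1) ^ 2 = 0 := by
        rw [← P.val_pow haR, ← hQξ, P.val_aeval hξ]
        exact hQe
      exact pow_eq_zero_iff (two_ne_zero) |>.1 h3
    have hmain := EVN_der P D' (hD P) (w := ξ - algebraMap K L e) (a := 2 * υ + 1)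
      (u := (aeval ξ q)⁻¹) (by rw [← hfac]; field_simp) ha hqinv
    rw [map_sub, hDD] at hmain
    exact P.val_eq hmain
  · intro P hξ
    have hw := EVN_inv_nonunit P hξ
    have hwR := P.nonunits_mem hw
    set w := ξ⁻¹ with hwdef
    have hpow : ∀ n, ξ ^ n * w ^ n = 1 := by
      intro n; rw [← mul_pow, mul_inv_cancel₀ hξ0, one_pow]
    set v := υ * w ^ (g + 1) with hv
    have hveq : v ^ 2 + w ^ (g + 1) * v = w + algebraMap K L s * w ^ (2 * g + 1) := by
      have h1 : (υ ^ 2 + υ) * (w ^ (g + 1)) ^ 2 =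
        (ξ ^ (2 * g + 1) + algebraMap K L s * ξ) * (w ^ (g + 1)) ^ 2 := by rw [heq]
      have h2 : (w ^ (g + 1)) ^ 2 = w ^ (2 * g + 1) * w := by ring
      have h3 : ξ * w = 1 := mul_inv_cancel₀ hξ0
      have h4 := hpow (2 * g + 1)
      rw [hv]
      calc (υ * w ^ (g + 1)) ^ 2 + w ^ (g + 1) * (υ * w ^ (g + 1))
          = (υ ^ 2 + υ) * (w ^ (g + 1)) ^ 2 := by ring
        _ = (ξ ^ (2 * g + 1) + algebraMap K L s * ξ) * (w ^ (2 * g + 1) * w) := by rw [h1, h2]
        _ = (ξ ^ (2 * g + 1) * w ^ (2 * g + 1)) * w + algebraMap K L s * w ^ (2 * g + 1) * (ξ * w) := by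
            ring
        _ = _ := by rw [h4, h3]; ring
    have hvR : v ∈ P.ring := by
      apply EVN_int P (P.pow_mem hwR _) _ hveq
      exact P.ring.add_mem _ _ hwR (P.ring.mul_mem _ _ (P.alg_mem _) (P.pow_mem hwR _))
    have hwv : P.val w = 0 := P.val_eq_zero_of_nonunit hw
    have hvm : v ∈ P.ring.nonunits := by
      apply P.nonunit_of_val_eq_zero hvR
      have h3 : P.val v ^ 2 = 0 := by
        have h5 := congrArg P.val hveq
        rw [P.val_add (P.pow_mem hvR _) (P.ring.mul_mem _ _ (P.pow_mem hwR _) hvR),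
          P.val_mul (P.pow_mem hwR _) hvR, P.val_pow hvR, P.val_pow hwR,
          P.val_add hwR (P.ring.mul_mem _ _ (P.alg_mem _) (P.pow_mem hwR _)),
          P.val_mul (P.alg_mem _) (P.pow_mem hwR _), P.val_pow hwR, hwv] at h5
        simpa using h5
      exact pow_eq_zero_iff (two_ne_zero) |>.1 h3
    set u := 1 + algebraMap K L s * w ^ (2 * g) - v * w ^ g with hu
    have huR : u ∈ P.ring := by
      apply P.ring.toSubring.sub_mem
      · exact P.ring.add_mem _ _ P.ring.one_mem
          (P.ring.mul_mem _ _ (P.alg_mem _) (P.pow_mem hwR _))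
      · exact P.ring.mul_mem _ _ hvR (P.pow_mem hwR _)
    have huv : P.val u = 1 := by
      rw [hu, P.val_sub (P.ring.add_mem _ _ P.ring.one_mem
          (P.ring.mul_mem _ _ (P.alg_mem _) (P.pow_mem hwR _)))
          (P.ring.mul_mem _ _ hvR (P.pow_mem hwR _)),
        P.val_add P.ring.one_mem (P.ring.mul_mem _ _ (P.alg_mem _) (P.pow_mem hwR _)),
        P.val_mul (P.alg_mem _) (P.pow_mem hwR _), P.val_mul hvR (P.pow_mem hwR _),
        P.val_pow hwR, P.val_pow hwR, hwv, zero_pow (by omega), zero_pow (by omega)]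
      simp
    have huinv := P.inv_mem_of_val huR (by rw [huv]; exact one_ne_zero)
    have hu0 : u ≠ 0 := by
      intro h0; rw [h0] at huv; simp at huv
    have hwu : w = v ^ 2 * u⁻¹ := by
      have : w * u = v ^ 2 := by
        rw [hu]
        have e1 : v ^ 2 = w + algebraMap K L s * w ^ (2 * g + 1) - w ^ (g + 1) * v := by
          linear_combination hveq
        rw [e1]
        ring
      rw [← this]
      field_simp
    have hmain := EVN_der P D' (hD P) hwu hvm huinv
    have h6 : D' ξ / ξ ^ 2 = - D' w := by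
      have h7 : D' (w * ξ) = 0 := by
        have : w * ξ = 1 := inv_mul_cancel₀ hξ0
        rw [this]
        exact D'.map_one_eq_zero
      rw [Derivation.leibniz, smul_eq_mul, smul_eq_mul] at h7
      have h8 : D' w = - (w * D' ξ) * w := by
        have h9 : ξ * D' w = - (w * D' ξ) := by linear_combination h7
        have h10 : D' w = (ξ * w) * D' w := by rw [mul_inv_cancel₀ hξ0, one_mul]
        rw [h10]
        linear_combination w * h9
      rw [h8, hwdef]
      field_simp
    rw [h6]
    exact (P.ring.nonunits).neg_mem hmain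

end PUC
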