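import Pool.Agent.H77.PUC.StmtsE

universe u v

namespace PUC

open Polynomial TensorProduct

theorem EXT_smooth (k : Type v) (L : Type u) [Field k] [CharZero k] [Field L] [Algebra k L] :
    Algebra.FormallySmooth k L := by
  obtain ⟨s, hs⟩ := exists_isTranscendenceBasis k L
  have h1 : Algebra.IsAlgebraic (IntermediateField.adjoin k (Set.range ((↑) : s → L))) L :=
    hs.isAlgebraic_field
  have : Algebra.IsSeparable (IntermediateField.adjoin k (Set.range ((↑) : s → L))) L :=
    inferInstance
  exact .of_algebraicIndependent_of_isSeparable hs.1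

theorem EXT_inj (S : Type v) (T : Type u) [CommRing S] [Field T] [Algebra S T]
    [Algebra.FormallySmooth S T] :
    Function.Injective (KaehlerDifferential.mapBaseChange ℤ S T) := by
  rw [injective_iff_map_eq_zero]
  intro x hx
  obtain ⟨x, rfl⟩ := (Algebra.H1Cotangent.exact_δ_mapBaseChange ℤ S T x).mp hx
  rw [Subsingleton.elim x 0, map_zero]

theorem EXT_ext (S : Type v) (T : Type u) [CommRing S] [Field T] [Algebra S T]
    [Algebra.FormallySmooth S T] (d : Derivation ℤ S T) :
    ∃ D' : Derivation ℤ T T, ∀ s : S, D' (algebraMap S T s) = d s := by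
  have hinj := EXT_inj S T
  obtain ⟨r, hr⟩ := LinearMap.exists_leftInverse_of_injective
    (KaehlerDifferential.mapBaseChange ℤ S T) (LinearMap.ker_eq_bot.2 hinj)
  let lin : T ⊗[S] (Ω[S⁄ℤ]) →ₗ[T] T := d.liftKaehlerDifferential.liftBaseChange T
  refine ⟨(lin ∘ₗ r).compDer (KaehlerDifferential.D ℤ T), fun s => ?_⟩
  have h1 : KaehlerDifferential.D ℤ T (algebraMap S T s) =
      KaehlerDifferential.mapBaseChange ℤ S T (1 ⊗ₜ KaehlerDifferential.D ℤ S s) := by
    rw [KaehlerDifferential.mapBaseChange_tmul, KaehlerDifferential.map_D, one_smul]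
  have h2 : r (KaehlerDifferential.D ℤ T (algebraMap S T s)) = 1 ⊗ₜ KaehlerDifferential.D ℤ S s := by
    rw [h1]
    exact LinearMap.congr_fun hr _
  show lin (r (KaehlerDifferential.D ℤ T (algebraMap S T s))) = d s
  rw [h2]
  simp only [lin, LinearMap.liftBaseChange_tmul, one_smul]
  exact d.liftKaehlerDifferential_comp_D s

theorem EXT_poly (K : Type v) (L : Type u) [Field K] [CharZero K] [Field L] [Algebra K L] (x : L)
    (hx : Transcendental K x) (d : Derivation ℤ K[X] K[X]) :
    ∃ D' : Derivation ℤ L L, ∀ p : K[X], D' (aeval x p) = aeval x (d p) := by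
  let φ : K[X] →+* L := (aeval x : K[X] →ₐ[K] L).toRingHom
  have hφ : Function.Injective φ := transcendental_iff_injective.1 hx
  let : Algebra K[X] L := φ.toAlgebra
  have : FaithfulSMul K[X] L := (faithfulSMul_iff_algebraMap_injective K[X] L).2 hφ
  let := FractionRing.liftAlgebra K[X] L
  have := FractionRing.isScalarTower_liftAlgebra K[X] L
  have : CharZero (FractionRing K[X]) := by
    exact charZero_of_injective_algebraMap (IsFractionRing.injective K[X] (FractionRing K[X]))
  have : Algebra.FormallySmooth K[X] (FractionRing K[X]) :=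
    .of_isLocalization (nonZeroDivisors _)
  have : Algebra.FormallySmooth (FractionRing K[X]) L := EXT_smooth _ _
  have : Algebra.FormallySmooth K[X] L := .comp _ (FractionRing K[X]) _
  let lin : K[X] →ₗ[K[X]] L := Algebra.linearMap K[X] L
  obtain ⟨D', hD'⟩ := EXT_ext K[X] L (lin.compDer d)
  refine ⟨D', fun p => ?_⟩
  exact hD' p

theorem sDer : SDer.{u} := by
  intro K _ _ s hs
  obtain ⟨D', hD'⟩ := EXT_poly ℚ K s hs (Polynomial.derivative'.restrictScalars ℤ)
  refine ⟨D', ?_⟩
  have := hD' X
  rw [aeval_X] at this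
  rw [this]
  show aeval s (derivative (X : ℚ[X])) = 1
  simp

theorem sDex : SDex.{u} := by
  intro K L _ _ _ _ x D hx _
  let : Differential K := ⟨D⟩
  obtain ⟨D', hD'⟩ := EXT_poly K L x hx Differential.mapCoeffs
  refine ⟨D', fun c => ?_, ?_⟩
  · have := hD' (C c)
    rw [aeval_C, Differential.mapCoeffs_C, aeval_C] at this
    exact this
  · have := hD' X
    rw [aeval_X, Differential.mapCoeffs_X, map_zero] at this
    exact this

end PUC
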