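import Pool.Agent.H77.PUC.StmtsE

/-! # FLP: finitely many values at the places over a point -/

universe u

namespace PUC

open Polynomial Filter Topology Metric

theorem FLP_gact_one {K Ω : Type u} [Field K] [Field Ω] [Algebra K Ω]
    [Algebra (RatFunc K) Ω] [IsScalarTower K (RatFunc K) Ω] (P : Place K Ω) :
    P.gact (1 : Ω ≃ₐ[RatFunc K] Ω) = P := by
  apply Place.ext'
  ext f
  exact Iff.rfl

theorem sFlp (hZpl : SZpl.{u}) (hLft : SLft.{u}) : SFlp.{u} := by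
  intro K Ω E _ _ _ _ _ _ _ _ _ _ _ F' _ _ Φ f hF
  classical
  obtain ⟨lft, h1, -, h3⟩ := hLft K Ω F'
  have key : ∀ P0 : Place K Ω, ∃ A : Finset K, ∀ P : Place K Ω, SameVal (zz K Ω) P0 P →
      (Φ P).val f ∈ A := by
    intro P0
    have : Fintype (F' ≃ₐ[RatFunc K] F') := Fintype.ofFinite _
    refine ⟨Finset.univ.image fun γ => (Φ (P0.gact (lft γ))).val f, ?_⟩
    intro P hP
    obtain ⟨σ, rfl⟩ := (hZpl K Ω).2.2 P0 P hP
    obtain ⟨e, he⟩ := h3 σ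
    have h4 := hF _ _ (he 1 P0)
    rw [h1, FLP_gact_one] at h4
    rw [h4.2]
    exact Finset.mem_image_of_mem _ (Finset.mem_univ _)
  constructor
  · by_cases h : ∃ P0 : Place K Ω, zz K Ω ∉ P0.ring
    · obtain ⟨P0, hP0⟩ := h
      obtain ⟨A, hA⟩ := key P0
      refine ⟨A, fun P hP => hA P ⟨iff_of_false hP0 hP, ?_⟩⟩
      rw [P0.val_of_not_mem hP0, P.val_of_not_mem hP]
    · exact ⟨∅, fun P hP => absurd ⟨P, hP⟩ h⟩
  · intro a
    by_cases h : ∃ P0 : Place K Ω, zz K Ω ∈ P0.ring ∧ P0.val (zz K Ω) = a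
    · obtain ⟨P0, hP0, hP1⟩ := h
      obtain ⟨A, hA⟩ := key P0
      exact ⟨A, fun P hP hPa => hA P ⟨iff_of_true hP0 hP, hP1.trans hPa.symm⟩⟩
    · exact ⟨∅, fun P hP hPa => absurd ⟨P, hP, hPa⟩ h⟩

end PUC
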