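import Pool.Agent.H77.PUC.StmtsE

/-! # GAG: GAGA -/

universe u

namespace PUC

open Polynomial Filter Topology Metric

theorem sGag (hGax : SGax.{u}) (hPol : SPol.{u}) (hTrd : STrd.{u}) : SGag.{u} := by
  intro K Ω E _ _ _ _ _ _ _ _ _ _ _ _ _ p hp hpn F' _ _ Φ f hf0 hf hF A h1 h2
  classical
  have hpol := hPol K Ω E p hp hpn F' Φ f hf0 hf hF A h1
  choose mm κ r hr hκ using hpol
  set m := A.sup mm with hm
  have h3 : ∀ a0 ∈ A, ∃ (κ r : ℝ), 0 < r ∧ ∀ P : Place K Ω, zz K Ω ∈ P.ring →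
    P.val (zz K Ω) ≠ a0 → ‖P.val (zz K Ω) - a0‖ ≤ r →
    ‖(Φ P).val f‖ * ‖P.val (zz K Ω) - a0‖ ^ m ≤ κ := by
    intro a0 ha0
    refine ⟨κ a0, min (r a0) 1, lt_min (hr a0) one_pos, ?_⟩
    intro P hz hne hle
    have h4 := hκ a0 P hz hne (hle.trans (min_le_left _ _))
    refine le_trans ?_ h4
    have h5 : ‖P.val (zz K Ω) - a0‖ ^ m ≤ ‖P.val (zz K Ω) - a0‖ ^ (mm a0) :=
      pow_le_pow_of_le_one (norm_nonneg _) (hle.trans (min_le_right _ _)) (Finset.le_sup ha0)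
    gcongr
  obtain ⟨g1, κ', m', g2⟩ := hGax K Ω E Φ f hf0 hf A m h1 h2 h3
  have hzF : zz K Ω ∈ F' := F'.algebraMap_mem _
  have hcF : ∀ c : K, algebraMap K Ω c ∈ F' := by
    intro c
    rw [IsScalarTower.algebraMap_apply K (RatFunc K) Ω]
    exact F'.algebraMap_mem _
  obtain ⟨f0, hf0F, B0, hB0⟩ := hTrd K Ω p hp hpn F' (Xp Φ f A m) κ' m' (by
    intro P P' hPP
    have h4 := hF P P' hPP
    have h5 := hPP.val_eq hzF
    unfold Xp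
    rw [h5, h4.2]) g1 g2
  have hdF : (∏ a ∈ A, (zz K Ω - algebraMap K Ω a) ^ (m + 1)) ∈ F' :=
    prod_mem fun a _ => pow_mem (sub_mem hzF (hcF a)) _
  refine ⟨f0 * (∏ a ∈ A, (zz K Ω - algebraMap K Ω a) ^ (m + 1))⁻¹,
    mul_mem hf0F (inv_mem hdF), B0 ∪ A, ?_⟩
  intro P hz hnB
  rw [Finset.mem_union, not_or] at hnB
  obtain ⟨hn1, hn2⟩ := hnB
  obtain ⟨h4, h5⟩ := hB0 P hz hn1
  have hf1 : f ∈ (Φ P).ring := by
    by_contra hn
    exact hn2 (h1 P hn).2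
  have hsub : ∀ a : K, zz K Ω - algebraMap K Ω a ∈ P.ring := fun a =>
    P.ring.sub_mem hz (P.alg_mem a)
  have hd : (∏ a ∈ A, (zz K Ω - algebraMap K Ω a) ^ (m + 1)) ∈ P.ring :=
    P.prod_mem _ _ fun a _ => P.pow_mem (hsub a) _
  have hdv : P.val (∏ a ∈ A, (zz K Ω - algebraMap K Ω a) ^ (m + 1)) =
      ∏ a ∈ A, (P.val (zz K Ω) - a) ^ (m + 1) := by
    rw [P.val_prod _ _ fun a _ => P.pow_mem (hsub a) _]
    apply Finset.prod_congr rfl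
    intro a _
    rw [P.val_pow (hsub a), P.val_sub hz (P.alg_mem a), P.val_algebraMap]
  have hne : (∏ a ∈ A, (P.val (zz K Ω) - a) ^ (m + 1)) ≠ 0 := by
    rw [Finset.prod_ne_zero_iff]
    intro a ha
    apply pow_ne_zero
    rw [sub_ne_zero]
    rintro e
    rw [e] at hn2
    exact hn2 ha
  have hd0 : P.val (∏ a ∈ A, (zz K Ω - algebraMap K Ω a) ^ (m + 1)) ≠ 0 := by rwa [hdv]
  have hdi := P.inv_mem_of_val hd hd0
  refine ⟨P.ring.mul_mem _ _ h4 hdi, hf1, ?_⟩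
  rw [P.val_mul h4 hdi, P.val_inv hd hd0, hdv, h5]
  unfold Xp
  rw [if_neg hn2]
  field_simp

end PUC
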