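import Pool.Agent.H77.PUC.FCx

/-! # GAX: `Xp` is exactly analytic on the discs and of polynomial growth -/

universe u

namespace PUC

open Polynomial Filter Topology Metric

theorem GAX_inv_close {K : Type*} [NontriviallyNormedField K] [IsUltrametricDist K] {u v : K}
    {ε ρ : ℝ} (hρ : 0 < ρ) (hu : ρ ≤ ‖u‖) (hε : ε < ρ) (h : ‖u - v‖ ≤ ε) :
    v ≠ 0 ∧ ‖u⁻¹ - v⁻¹‖ ≤ ε * (ρ⁻¹) ^ 2 := by
  have hv : ‖v‖ = ‖u‖ := by
    have h1 : ‖v - u‖ < ‖u‖ := by
      rw [norm_sub_rev]; linarith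
    have h2 : v = u + (v - u) := by ring
    rw [h2]
    rw [IsUltrametricDist.norm_add_eq_max_of_norm_ne_norm h1.ne']
    exact max_eq_left h1.le
  have hu0 : u ≠ 0 := by
    rintro rfl; rw [norm_zero] at hu; linarith
  have hv0 : v ≠ 0 := by
    rintro rfl; rw [norm_zero] at hv; linarith
  refine ⟨hv0, ?_⟩
  have e : u⁻¹ - v⁻¹ = - (u - v) * (u⁻¹ * v⁻¹) := by
    field_simp
    ring
  rw [e, norm_mul, norm_neg, norm_mul, norm_inv, norm_inv, hv]
  have h3 : ‖u‖⁻¹ ≤ ρ⁻¹ := by gcongr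
  have h4 : 0 ≤ ε := (norm_nonneg _).trans h
  calc ‖u - v‖ * (‖u‖⁻¹ * ‖u‖⁻¹) ≤ ε * (ρ⁻¹ * ρ⁻¹) := by gcongr
    _ = ε * (ρ⁻¹) ^ 2 := by ring

/-- a bounded analytic function is approximable -/
theorem GAX_bdd {K Ω E : Type u} [NontriviallyNormedField K] [IsUltrametricDist K] [Field Ω]
    [Algebra K Ω] [Field E] [Algebra K E] (Φ : Place K Ω → Place K E) (f : E) (hf0 : f ≠ 0)
    (hf : AnF Φ f) (A : Set (Place K Ω)) (κ : ℝ)
    (hA : ∀ P ∈ A, f ∈ (Φ P).ring ∧ ‖(Φ P).val f‖ ≤ κ) (ε : ℝ) (hε : 0 < ε) :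
    FCon A ε (fun P => (Φ P).val f) := by
  classical
  set κ' := max κ 1 with hκ'
  have hκ1 : 1 ≤ κ' := le_max_right _ _
  set ρ := κ'⁻¹ with hρdef
  have hρ : 0 < ρ := by positivity
  set ε' := min ε (min (ρ / 2) (ε * ρ ^ 2)) with hε'
  have hε'0 : 0 < ε' := by positivity
  obtain ⟨n, T, g, hc, h⟩ := hf ε' hε'0
  refine ⟨n, T, fun i => if (∀ P ∈ Dom K (T i),
            f ∈ (Φ P).ring ∧ g i ∈ P.ring ∧ ‖(Φ P).val f - P.val (g i)‖ ≤ ε') then g i
            else (g i)⁻¹, fun P _ => hc P, ?_⟩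
  intro i P hP hi
  by_cases hd : ∀ P ∈ Dom K (T i),
            f ∈ (Φ P).ring ∧ g i ∈ P.ring ∧ ‖(Φ P).val f - P.val (g i)‖ ≤ ε'
  · simp only [if_pos hd]
    obtain ⟨-, h2, h3⟩ := hd P hi
    exact ⟨h2, h3.trans (min_le_left _ _)⟩
  · simp only [if_neg hd]
    obtain ⟨h1, h2, h3⟩ := ((h i).resolve_left hd) P hi
    obtain ⟨h4, h5⟩ := hA P hP
    have hm := (Φ P).val_mul h4 h1
    rw [mul_inv_cancel₀ hf0, (Φ P).val_one] at hm
    have hu : (Φ P).val f = ((Φ P).val f⁻¹)⁻¹ := eq_inv_of_mul_eq_one_left hm.symm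
    have hu1 : ρ ≤ ‖(Φ P).val f⁻¹‖ := by
      have h6 := congrArg norm hm
      rw [norm_one, norm_mul] at h6
      have h7 : ‖(Φ P).val f‖ ≤ κ' := h5.trans (le_max_left _ _)
      rw [hρdef]
      rw [inv_le_iff_one_le_mul₀ (by positivity), h6, mul_comm]
      gcongr
    obtain ⟨h7, h9⟩ := GAX_inv_close hρ hu1
      (lt_of_le_of_lt ((min_le_right _ _).trans (min_le_left _ _)) (by linarith)) h3
    refine ⟨P.inv_mem_of_val h2 h7, ?_⟩
    rw [P.val_inv h2 h7, hu]
    refine h9.trans ?_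
    have h10 : ε' ≤ ε * ρ ^ 2 := (min_le_right _ _).trans (min_le_right _ _)
    calc ε' * ρ⁻¹ ^ 2 ≤ ε * ρ ^ 2 * ρ⁻¹ ^ 2 := by gcongr
      _ = ε := by field_simp

section

variable {K Ω E : Type u} [NontriviallyNormedField K] [IsUltrametricDist K]
  [Field Ω] [Algebra K Ω]
  [Algebra (RatFunc K) Ω] [IsScalarTower K (RatFunc K) Ω]
  [Field E] [Algebra K E]

omit [IsUltrametricDist K] in
theorem GAX_z_ne (a : K) : zz K Ω - algebraMap K Ω a ≠ 0 := by
  rw [zz, IsScalarTower.algebraMap_apply K (RatFunc K) Ω, ← map_sub, Ne, map_eq_zero]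
  intro h
  have h1 : (RatFunc.X : RatFunc K) = RatFunc.C a := by
    rw [← RatFunc.algebraMap_eq_C]; exact sub_eq_zero.1 h
  have h2 := congrArg RatFunc.num h1
  rw [RatFunc.num_X, RatFunc.num_C] at h2
  exact Polynomial.X_ne_C a h2

omit [IsUltrametricDist K] in
theorem GAX_far (Φ : Place K Ω → Place K E) (f : E) (A : Finset K) (m : ℕ) (P : Place K Ω)
    (W κ : ℝ) (hW : ∀ a ∈ A, ‖P.val (zz K Ω) - a‖ ≤ W)
    (hκ : ‖(Φ P).val f‖ ≤ κ) (hW0 : 0 ≤ W) : ‖Xp Φ f A m P‖ ≤ κ * W ^ ((m + 1) * A.card) := by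
  have hκ0 : 0 ≤ κ := (norm_nonneg _).trans hκ
  unfold Xp
  split_ifs with h
  · rw [norm_zero]; positivity
  · rw [norm_mul, norm_prod]
    have h1 : ∏ a ∈ A, ‖(P.val (zz K Ω) - a) ^ (m + 1)‖ ≤ ∏ a ∈ A, W ^ (m + 1) := by
      apply Finset.prod_le_prod
      · intro i _; positivity
      · intro a ha
        rw [norm_pow]
        have := hW a ha
        gcongr
    rw [Finset.prod_const, ← pow_mul] at h1
    gcongr

omit [IsUltrametricDist K] in
theorem GAX_near (Φ : Place K Ω → Place K E) (f : E) (A : Finset K) (m : ℕ) (P : Place K Ω)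
    (W κ : ℝ) (hW : ∀ a ∈ A, ‖P.val (zz K Ω) - a‖ ≤ W) (hW0 : 1 ≤ W) (a0 : K) (ha0 : a0 ∈ A)
    (hκ : P.val (zz K Ω) ≠ a0 → ‖(Φ P).val f‖ * ‖P.val (zz K Ω) - a0‖ ^ m ≤ κ) (hκ0 : 0 ≤ κ) :
    ‖Xp Φ f A m P‖ ≤ κ * ‖P.val (zz K Ω) - a0‖ * W ^ ((m + 1) * A.card) := by
  classical
  unfold Xp
  split_ifs with h
  · rw [norm_zero]; positivity
  · have hne : P.val (zz K Ω) ≠ a0 := by rintro e; rw [e] at h; exact h ha0
    rw [norm_mul, norm_prod, ← Finset.mul_prod_erase A _ ha0]
    have h1 : ∏ a ∈ A.erase a0, ‖(P.val (zz K Ω) - a) ^ (m + 1)‖ ≤ ∏ a ∈ A.erase a0, W ^ (m + 1) := by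
      apply Finset.prod_le_prod
      · intro i _; positivity
      · intro a ha
        rw [norm_pow]
        have := hW a (Finset.mem_of_mem_erase ha)
        gcongr
    rw [Finset.prod_const, ← pow_mul] at h1
    have h2 : W ^ ((m + 1) * (A.erase a0).card) ≤ W ^ ((m + 1) * A.card) := by
      apply pow_le_pow_right₀ hW0
      gcongr
      exact Finset.erase_subset _ _
    have h3 := hκ hne
    rw [norm_pow]
    calc ‖(Φ P).val f‖ * (‖P.val (zz K Ω) - a0‖ ^ (m + 1) *
          ∏ a ∈ A.erase a0, ‖(P.val (zz K Ω) - a) ^ (m + 1)‖)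
        = (‖(Φ P).val f‖ * ‖P.val (zz K Ω) - a0‖ ^ m) * ‖P.val (zz K Ω) - a0‖ *
          ∏ a ∈ A.erase a0, ‖(P.val (zz K Ω) - a) ^ (m + 1)‖ := by ring
      _ ≤ κ * ‖P.val (zz K Ω) - a0‖ * W ^ ((m + 1) * A.card) := by
          have := h1.trans h2
          gcongr

theorem GAX_W (A : Finset K) : ∃ M0 : ℝ, 1 ≤ M0 ∧ ∀ z : K, ∀ a ∈ A, ‖z - a‖ ≤ M0 * max 1 ‖z‖ := by
  refine ⟨1 + ∑ a ∈ A, ‖a‖, ?_, ?_⟩
  · have : 0 ≤ ∑ a ∈ A, ‖a‖ := Finset.sum_nonneg fun i _ => norm_nonneg _
    linarith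
  · intro z a ha
    have h1 : ‖a‖ ≤ ∑ a ∈ A, ‖a‖ := Finset.single_le_sum (f := fun a : K => ‖a‖)
      (fun i _ => norm_nonneg _) ha
    have h2 : 1 ≤ max 1 ‖z‖ := le_max_left _ _
    have h3 : ‖z‖ ≤ max 1 ‖z‖ := le_max_right _ _
    refine (norm_sub_le_max' _ _).trans (max_le ?_ ?_)
    · nlinarith [norm_nonneg a]
    · nlinarith [norm_nonneg a]

end

theorem sGax : SGax.{u} := by
  intro K Ω E _ _ _ _ _ _ _ _ Φ f hf0 hf A m h1 h2 h3
  classical
  obtain ⟨M0, hM0, hM⟩ := GAX_W A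
  -- common constants
  choose! κ r hr hκ using h3
  -- nonnegative κ
  have hκ' : ∀ a0 ∈ A, ∀ P : Place K Ω, zz K Ω ∈ P.ring → P.val (zz K Ω) ≠ a0 →
      ‖P.val (zz K Ω) - a0‖ ≤ r a0 → ‖(Φ P).val f‖ * ‖P.val (zz K Ω) - a0‖ ^ m ≤ max (κ a0) 0 :=
    fun a0 ha0 P h4 h5 h6 => (hκ a0 ha0 P h4 h5 h6).trans (le_max_left _ _)
  constructor
  · intro c hc ε hε
    set W := M0 * max 1 ‖c‖ with hWdef
    have hW1 : 1 ≤ W := by
      have : 1 ≤ max 1 ‖c‖ := le_max_left _ _
      nlinarith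
    have hWP : ∀ P ∈ (Disc 0 c : Set (Place K Ω)), ∀ a ∈ A, ‖P.val (zz K Ω) - a‖ ≤ W := by
      intro P hP a ha
      have h4 : ‖P.val (zz K Ω)‖ ≤ ‖c‖ := by simpa using hP.2
      refine (hM _ a ha).trans ?_
      have : max 1 ‖P.val (zz K Ω)‖ ≤ max 1 ‖c‖ := max_le_max le_rfl h4
      rw [hWdef]
      gcongr
    set D := W ^ ((m + 1) * A.card) with hD
    have hD1 : 1 ≤ D := one_le_pow₀ hW1
    -- choose the radius
    obtain ⟨δ, hδ, hδ'⟩ : ∃ δ : ℝ, 0 < δ ∧ ∀ a ∈ A, δ ≤ r a ∧ max (κ a) 0 * δ * D ≤ ε := by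
      have : ∀ B : Finset K, B ⊆ A → ∃ δ : ℝ, 0 < δ ∧ ∀ a ∈ B, δ ≤ r a ∧ max (κ a) 0 * δ * D ≤ ε := by
        intro B
        induction B using Finset.induction_on with
        | empty => intro _; exact ⟨1, one_pos, by simp⟩
        | insert b B hb ih =>
          intro hB
          obtain ⟨δ, h4, h5⟩ := ih ((Finset.subset_insert _ _).trans hB)
          have hbA : b ∈ A := hB (Finset.mem_insert_self _ _)
          set k := max (κ b) 0 with hk
          have hk0 : 0 ≤ k := le_max_right _ _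
          refine ⟨min δ (min (r b) (ε / ((k + 1) * D))), ?_, ?_⟩
          · have := hr b hbA
            positivity
          · intro a ha
            rw [Finset.mem_insert] at ha
            have h0 : min δ (min (r b) (ε / ((k + 1) * D))) ≤ δ := min_le_left _ _
            rcases ha with rfl | ha
            · refine ⟨(min_le_right _ _).trans (min_le_left _ _), ?_⟩
              have h6 : min δ (min (r a) (ε / ((k + 1) * D))) ≤ ε / ((k + 1) * D) :=
                (min_le_right _ _).trans (min_le_right _ _)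
              calc max (κ a) 0 * min δ (min (r a) (ε / ((k + 1) * D))) * D
                  ≤ (k + 1) * (ε / ((k + 1) * D)) * D := by
                    rw [← hk]
                    have : k ≤ k + 1 := by linarith
                    have h7 : 0 ≤ min δ (min (r a) (ε / ((k + 1) * D))) := by
                      have := hr a hbA
                      positivity
                    gcongr
                _ = ε := by field_simp
            · obtain ⟨h6, h7⟩ := h5 a ha
              refine ⟨h0.trans h6, le_trans ?_ h7⟩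
              have : 0 ≤ max (κ a) 0 := le_max_right _ _
              gcongr
      exact this A (Finset.Subset.refl _)
    obtain ⟨ϖ, hϖ0, hϖ⟩ := NormedField.exists_norm_lt K hδ
    have hϖne : ϖ ≠ 0 := norm_pos_iff.1 hϖ0
    have hzn : ∀ a : K, zz K Ω - algebraMap K Ω a ≠ 0 := fun a => GAX_z_ne a
    have hϖΩ : algebraMap K Ω ϖ ≠ 0 := by rwa [Ne, map_eq_zero]
    refine FCx_pieces (κ := Option A) (fun o => match o with
      | some a => {(zz K Ω - algebraMap K Ω a.1) * (algebraMap K Ω ϖ)⁻¹}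
      | none => A.image fun a => algebraMap K Ω ϖ * (zz K Ω - algebraMap K Ω a)⁻¹) ?_ ?_
    · intro P hP
      have hz : zz K Ω ∈ P.ring := hP.1
      have hsub : ∀ a : K, zz K Ω - algebraMap K Ω a ∈ P.ring := fun a =>
        P.ring.sub_mem hz (P.alg_mem a)
      have hval : ∀ a : K, P.val (zz K Ω - algebraMap K Ω a) = P.val (zz K Ω) - a := fun a => by
        rw [P.val_sub hz (P.alg_mem a), P.val_algebraMap]
      by_cases hex : ∃ a ∈ A, ‖P.val (zz K Ω) - a‖ ≤ ‖ϖ‖
      · obtain ⟨a, ha, h4⟩ := hex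
        refine ⟨some ⟨a, ha⟩, ?_⟩
        intro t ht
        have ht : t = (zz K Ω - algebraMap K Ω a) * (algebraMap K Ω ϖ)⁻¹ := by simpa using ht
        subst ht
        have h5 : (algebraMap K Ω ϖ)⁻¹ ∈ P.ring := by rw [← map_inv₀]; exact P.alg_mem _
        refine ⟨P.ring.mul_mem _ _ (hsub a) h5, ?_⟩
        rw [P.val_mul (hsub a) h5, hval, ← map_inv₀, P.val_algebraMap, norm_mul, norm_inv,
          ← div_eq_mul_inv]
        exact (div_le_one hϖ0).2 h4
      · push Not at hex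
        refine ⟨none, ?_⟩
        intro t ht
        have ht : ∃ a ∈ A, algebraMap K Ω ϖ * (zz K Ω - algebraMap K Ω a)⁻¹ = t := by simpa using ht
        obtain ⟨a, ha, rfl⟩ := ht
        have h4 := hex a ha
        have h5 : P.val (zz K Ω - algebraMap K Ω a) ≠ 0 := by
          rw [hval]
          intro h0
          rw [h0, norm_zero] at h4
          exact absurd h4 (not_lt.2 (norm_nonneg _))
        have h6 := P.inv_mem_of_val (hsub a) h5
        refine ⟨P.ring.mul_mem _ _ (P.alg_mem _) h6, ?_⟩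
        rw [P.val_mul (P.alg_mem _) h6, P.val_inv (hsub a) h5, hval, P.val_algebraMap, norm_mul,
          norm_inv, ← div_eq_mul_inv]
        exact (div_le_one (hϖ0.trans h4)).2 h4.le
    · rintro (_ | a)
      · -- far from the points of `A`
        have far : ∀ P ∈ (Disc 0 c : Set (Place K Ω)) ∩ Dom K (A.image fun a =>
            algebraMap K Ω ϖ * (zz K Ω - algebraMap K Ω a)⁻¹), ∀ a ∈ A,
            ‖ϖ‖ ≤ ‖P.val (zz K Ω) - a‖ := by
          intro P hP a ha
          have hz : zz K Ω ∈ P.ring := hP.1.1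
          have hsub : zz K Ω - algebraMap K Ω a ∈ P.ring := P.ring.sub_mem hz (P.alg_mem a)
          obtain ⟨h4, h5⟩ := hP.2 _ (Finset.mem_image_of_mem _ ha)
          have h6 := P.val_mul hsub h4
          have e : (zz K Ω - algebraMap K Ω a) * (algebraMap K Ω ϖ *
              (zz K Ω - algebraMap K Ω a)⁻¹) = algebraMap K Ω ϖ := by
            have := hzn a
            field_simp
          rw [e, P.val_algebraMap, P.val_sub hz (P.alg_mem a), P.val_algebraMap] at h6
          calc ‖ϖ‖ = ‖P.val (zz K Ω) - a‖ * ‖P.val (algebraMap K Ω ϖ *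
              (zz K Ω - algebraMap K Ω a)⁻¹)‖ := (congrArg norm h6).trans (norm_mul _ _)
            _ ≤ ‖P.val (zz K Ω) - a‖ * 1 := by gcongr
            _ = _ := mul_one _
        obtain ⟨κ1, hκ1⟩ := h2 ‖ϖ‖ hϖ0
        have hA : ∀ P ∈ (Disc 0 c : Set (Place K Ω)) ∩ Dom K (A.image fun a =>
            algebraMap K Ω ϖ * (zz K Ω - algebraMap K Ω a)⁻¹),
            f ∈ (Φ P).ring ∧ ‖(Φ P).val f‖ ≤ κ1 := by
          intro P hP
          have h4 := far P hP
          refine ⟨?_, hκ1 P fun _ => h4⟩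
          by_contra hn
          obtain ⟨-, h5⟩ := h1 P hn
          have h6 := h4 _ h5
          rw [sub_self, norm_zero] at h6
          linarith
        have h4 := GAX_bdd Φ f hf0 hf _ κ1 hA (ε / D) (by positivity)
        have h5 := FCx_mulfun (κ := D) (by positivity)
          (∏ a ∈ A, (zz K Ω - algebraMap K Ω a) ^ (m + 1)) h4 ?_
        · have h6 : D * (ε / D) = ε := by field_simp
          rw [h6] at h5
          refine FCx_congr ?_ h5
          intro P hP
          have hz : zz K Ω ∈ P.ring := hP.1.1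
          have hsub : ∀ a : K, zz K Ω - algebraMap K Ω a ∈ P.ring := fun a =>
            P.ring.sub_mem hz (P.alg_mem a)
          have hnot : P.val (zz K Ω) ∉ A := by
            intro h7
            have h8 := far P hP _ h7
            rw [sub_self, norm_zero] at h8
            linarith
          unfold Xp
          rw [if_neg hnot, P.val_prod _ _ fun a _ => P.pow_mem (hsub a) _]
          congr 1
          apply Finset.prod_congr rfl
          intro a _
          rw [P.val_pow (hsub a), P.val_sub hz (P.alg_mem a), P.val_algebraMap]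
        · intro P hP
          have hz : zz K Ω ∈ P.ring := hP.1.1
          have hsub : ∀ a : K, zz K Ω - algebraMap K Ω a ∈ P.ring := fun a =>
            P.ring.sub_mem hz (P.alg_mem a)
          refine ⟨P.prod_mem _ _ fun a _ => P.pow_mem (hsub a) _, ?_⟩
          rw [P.val_prod _ _ fun a _ => P.pow_mem (hsub a) _, norm_prod]
          calc ∏ a ∈ A, ‖P.val ((zz K Ω - algebraMap K Ω a) ^ (m + 1))‖
              ≤ ∏ a ∈ A, W ^ (m + 1) := by
                apply Finset.prod_le_prod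
                · intro i _; positivity
                · intro a ha
                  rw [P.val_pow (hsub a), P.val_sub hz (P.alg_mem a), P.val_algebraMap, norm_pow]
                  have := hWP P hP.1 a ha
                  gcongr
            _ = D := by rw [Finset.prod_const, ← pow_mul]
      · -- near the point `a`
        refine FCx_close (FCx_const _ hε.le 0) ?_
        intro P hP
        have hz : zz K Ω ∈ P.ring := hP.1.1
        have hsub : zz K Ω - algebraMap K Ω a.1 ∈ P.ring := P.ring.sub_mem hz (P.alg_mem _)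
        obtain ⟨-, h5⟩ := hP.2 ((zz K Ω - algebraMap K Ω a.1) * (algebraMap K Ω ϖ)⁻¹) (by simp)
        have h6 : (algebraMap K Ω ϖ)⁻¹ ∈ P.ring := by rw [← map_inv₀]; exact P.alg_mem _
        rw [P.val_mul hsub h6, P.val_sub hz (P.alg_mem _), P.val_algebraMap, ← map_inv₀,
          P.val_algebraMap, norm_mul, norm_inv, ← div_eq_mul_inv, div_le_one hϖ0] at h5
        obtain ⟨h7, h8⟩ := hδ' a.1 a.2
        have h9 := GAX_near Φ f A m P W (max (κ a.1) 0) (hWP P hP.1) hW1 a.1 a.2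
          (fun hne => hκ' a.1 a.2 P hz hne (by linarith)) (le_max_right _ _)
        rw [zero_sub, norm_neg]
        refine h9.trans (le_trans ?_ h8)
        have h10 : ‖P.val (zz K Ω) - a.1‖ ≤ δ := by linarith
        have : 0 ≤ max (κ a.1) 0 := le_max_right _ _
        gcongr
  · -- growth
    obtain ⟨δ, hδ, hδ'⟩ : ∃ δ : ℝ, 0 < δ ∧ ∀ a ∈ A, δ ≤ r a := by
      have : ∀ B : Finset K, B ⊆ A → ∃ δ : ℝ, 0 < δ ∧ ∀ a ∈ B, δ ≤ r a := by
        intro B
        induction B using Finset.induction_on with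
        | empty => intro _; exact ⟨1, one_pos, by simp⟩
        | insert b B hb ih =>
          intro hB
          obtain ⟨δ, h4, h5⟩ := ih ((Finset.subset_insert _ _).trans hB)
          have hbA : b ∈ A := hB (Finset.mem_insert_self _ _)
          refine ⟨min δ (r b), lt_min h4 (hr b hbA), ?_⟩
          intro a ha
          rw [Finset.mem_insert] at ha
          rcases ha with rfl | ha
          · exact min_le_right _ _
          · exact (min_le_left _ _).trans (h5 a ha)
      exact this A (Finset.Subset.refl _)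
    obtain ⟨κ1, hκ1⟩ := h2 δ hδ
    set m' := (m + 1) * A.card + 1 with hm'
    set k2 := max κ1 0 + ∑ a ∈ A, max (κ a) 0 with hk2
    have hs0 : 0 ≤ ∑ a ∈ A, max (κ a) 0 := Finset.sum_nonneg fun i _ => le_max_right _ _
    refine ⟨k2 * M0 ^ m', m', ?_⟩
    intro P hz
    set N := max 1 ‖P.val (zz K Ω)‖ with hN
    have hN1 : 1 ≤ N := le_max_left _ _
    have hMN : 1 ≤ M0 * N := by nlinarith
    have hW : ∀ a ∈ A, ‖P.val (zz K Ω) - a‖ ≤ M0 * N := fun a ha => hM _ a ha
    have e1 : k2 * M0 ^ m' * N ^ m' = k2 * (M0 * N) ^ m' := by rw [mul_pow]; ring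
    rw [e1]
    by_cases hex : ∀ a ∈ A, δ ≤ ‖P.val (zz K Ω) - a‖
    · have h4 := GAX_far Φ f A m P (M0 * N) (max κ1 0) hW
        ((hκ1 P fun _ => hex).trans (le_max_left _ _)) (by positivity)
      refine h4.trans ?_
      have h5 : (M0 * N) ^ ((m + 1) * A.card) ≤ (M0 * N) ^ m' :=
        pow_le_pow_right₀ hMN (by omega)
      have h6 : max κ1 0 ≤ k2 := by linarith
      have : 0 ≤ max κ1 0 := le_max_right _ _
      gcongr
    · push Not at hex
      obtain ⟨a, ha, h4⟩ := hex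
      have h5 := GAX_near Φ f A m P (M0 * N) (max (κ a) 0) hW hMN a ha
        (fun hne => hκ' a ha P hz hne (h4.le.trans (hδ' a ha))) (le_max_right _ _)
      refine h5.trans ?_
      have h6 : max (κ a) 0 ≤ k2 := by
        have : max (κ a) 0 ≤ ∑ a ∈ A, max (κ a) 0 :=
          Finset.single_le_sum (f := fun a : K => max (κ a) 0) (fun i _ => le_max_right _ _) ha
        have : 0 ≤ max κ1 0 := le_max_right _ _
        linarith
      have h7 : 0 ≤ max (κ a) 0 := le_max_right _ _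
      calc max (κ a) 0 * ‖P.val (zz K Ω) - a‖ * (M0 * N) ^ ((m + 1) * A.card)
          ≤ k2 * (M0 * N) * (M0 * N) ^ ((m + 1) * A.card) := by
            have := hW a ha
            gcongr
        _ = k2 * (M0 * N) ^ m' := by rw [hm', pow_succ]; ring

end PUC
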