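import Pool.Agent.H77.PUC.StmtsE

universe u

namespace PUC

open Polynomial

theorem PID_part1 (K : Type u) [Field K] [CharZero K] (g : ℕ) (s : K) (hg : 1 ≤ g)
    (hs : Transcendental ℚ s) (e : K) (he : 1 + 4 * s * e + 4 * e ^ (2 * g + 1) = 0) :
    4 * s + 4 * (2 * g + 1 : K) * e ^ (2 * g) ≠ 0 := by
  intro h
  have h1 : s = - ((2 * g + 1 : K) * e ^ (2 * g)) := by
    have h4 : (4 : K) ≠ 0 := by norm_num
    have : (4 : K) * (s + (2 * g + 1 : K) * e ^ (2 * g)) = 0 := by linear_combination h
    have h2 := (mul_eq_zero.1 this).resolve_left h4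
    linear_combination h2
  have h2 : 1 - 8 * (g : K) * e ^ (2 * g + 1) = 0 := by
    rw [h1] at he
    rw [pow_succ] at he ⊢
    linear_combination he
  have halg : IsAlgebraic ℚ e := by
    refine ⟨1 - C (8 * (g : ℚ)) * X ^ (2 * g + 1), ?_, ?_⟩
    · intro h0
      have h3 := congrArg (fun q : ℚ[X] => q.coeff 0) h0
      simp [coeff_X_pow] at h3
    · simp only [map_sub, map_one, map_mul, aeval_C, map_pow, aeval_X]
      simpa using h2
  apply hs
  rw [h1]
  apply IsAlgebraic.neg
  apply IsAlgebraic.mul
  · have : IsAlgebraic ℚ (algebraMap ℚ K (2 * g + 1)) := isAlgebraic_algebraMap _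
    simpa using this
  · exact halg.pow _

theorem sPid : SPid.{u} := by
  intro K _ _ _ g s hg hs
  refine ⟨fun e he => PID_part1 K g s hg hs e he, ?_⟩
  rintro ⟨V, hV, hroot⟩
  set D : K[X] := 1 + C (4 * s) * X + C 4 * X ^ (2 * g + 1) with hD
  have h4 : (4 : K) ≠ 0 := by norm_num
  have hDeval : ∀ e : K, D.eval e = 1 + 4 * s * e + 4 * e ^ (2 * g + 1) := by
    intro e; simp [hD]
  have hDder : ∀ e : K, (derivative D).eval e = 4 * s + 4 * (2 * g + 1 : K) * e ^ (2 * g) := by
    intro e
    simp [hD, derivative_X_pow]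
    ring
  have hD0 : D ≠ 0 := by
    intro h
    have h3 := congrArg (fun q : K[X] => q.coeff 0) h
    simp [hD, coeff_X_pow, coeff_one] at h3
  have hcD : ∀ n, D.coeff n = (if n = 0 then 1 else 0) + (if n = 1 then 4 * s else 0) +
      (if n = 2 * g + 1 then 4 else 0) := by
    intro n
    simp only [hD, coeff_add, coeff_C_mul, coeff_X_pow, coeff_one, coeff_X, mul_ite, mul_one, mul_zero]
    simp only [eq_comm (a := 1)]
  have hdeg : D.natDegree = 2 * g + 1 := by
    apply natDegree_eq_of_le_of_coeff_ne_zero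
    · rw [natDegree_le_iff_coeff_eq_zero]
      intro N hN
      rw [hcD, if_neg (by omega), if_neg (by omega), if_neg (by omega)]
      simp
    · rw [hcD, if_neg (by omega), if_neg (by omega), if_pos rfl]
      simpa using h4
  -- roots are simple
  have hnodup : D.roots.Nodup := by
    apply nodup_roots
    rw [Polynomial.separable_def]
    by_contra hcop
    obtain ⟨e, he1, he2⟩ : ∃ e : K, D.IsRoot e ∧ (derivative D).IsRoot e := by
      by_contra hno
      push Not at hno
      apply hcop
      rw [isCoprime_iff_aeval_ne_zero_of_isAlgClosed K K]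
      intro a
      by_cases ha : D.IsRoot a
      · right
        have := hno a ha
        simpa [IsRoot, aeval_def, eval₂_eq_eval_map] using this
      · left
        simpa [IsRoot, aeval_def, eval₂_eq_eval_map] using ha
    have h5 : 1 + 4 * s * e + 4 * e ^ (2 * g + 1) = 0 := by rw [← hDeval]; exact he1
    have h6 : 4 * s + 4 * (2 * g + 1 : K) * e ^ (2 * g) = 0 := by rw [← hDder]; exact he2
    exact PID_part1 K g s hg hs e h5 h6
  set W : K[X] := V * derivative D + C 4 * X with hW
  have hWroot : ∀ e ∈ D.roots, W.eval e = 0 := by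
    intro e he
    rw [mem_roots hD0, IsRoot, hDeval] at he
    rw [hW, eval_add, eval_mul, hDder, eval_mul, eval_C, eval_X]
    exact hroot e he
  have hdvd : D ∣ W := by
    by_cases hW0 : W = 0
    · rw [hW0]; exact dvd_zero _
    have hle : D.roots ≤ W.roots := by
      rw [Multiset.le_iff_subset hnodup]
      intro e he
      rw [mem_roots hW0]
      exact hWroot e he
    have h7 : (D.roots.map fun a => X - C a).prod ∣ W := by
      rw [Multiset.prod_X_sub_C_dvd_iff_le_roots hW0]
      exact hle
    have h8 : D = C D.leadingCoeff * (D.roots.map fun a => X - C a).prod :=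
      (IsAlgClosed.splits D).eq_prod_roots
    have hu : IsUnit (C D.leadingCoeff) := by
      rw [isUnit_C]
      exact isUnit_iff_ne_zero.2 (leadingCoeff_ne_zero.2 hD0)
    rw [h8]
    exact (hu.mul_left_dvd).2 h7
  obtain ⟨c, hc⟩ := hdvd
  have hderdeg : (derivative D).natDegree ≤ 2 * g := by
    have := natDegree_derivative_le D
    omega
  have hWdeg : W.natDegree ≤ 2 * g + 1 := by
    apply natDegree_add_le_of_degree_le
    · refine natDegree_mul_le.trans ?_
      omega
    · refine (natDegree_C_mul_le _ _).trans ?_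
      rw [natDegree_X]; omega
  have hcC : ∃ c0 : K, c = C c0 := by
    by_cases hc0 : c = 0
    · exact ⟨0, by simp [hc0]⟩
    · have := natDegree_mul hD0 hc0
      rw [← hc, hdeg] at this
      have h9 : c.natDegree = 0 := by omega
      exact ⟨c.coeff 0, eq_C_of_natDegree_eq_zero h9⟩
  obtain ⟨c0, rfl⟩ := hcC
  obtain ⟨α, β, hVe⟩ : ∃ α β : K, V = C α * X + C β :=
    ⟨V.coeff 1, V.coeff 0, eq_X_add_C_of_natDegree_le_one hV⟩
  have hder : derivative D = C (4 * s) + C (4 * (2 * (g : K) + 1)) * X ^ (2 * g) := by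
    have e1 : derivative D = C (4 * s) + C 4 * (C ((2 * g + 1 : ℕ) : K) * X ^ (2 * g)) := by
      simp [hD, derivative_X_pow]
    rw [e1, ← mul_assoc, ← C_mul]
    push_cast
    ring
  have hWx : W = C (4 * s * α + 4) * X + C (4 * s * β) + C (4 * (2 * (g : K) + 1) * α) * X ^ (2 * g + 1) +
      C (4 * (2 * (g : K) + 1) * β) * X ^ (2 * g) := by
    rw [hW, hVe, hder]
    simp only [C_add, C_mul]
    ring
  have hco : ∀ n, W.coeff n = c0 * D.coeff n := by
    intro n
    rw [hc, mul_comm D, coeff_C_mul]
  have hWc : ∀ n, W.coeff n = (if n = 1 then 4 * s * α + 4 else 0) + (if n = 0 then 4 * s * β else 0) +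
      (if n = 2 * g + 1 then 4 * (2 * g + 1) * α else 0) +
      (if n = 2 * g then 4 * (2 * g + 1) * β else 0) := by
    intro n
    rw [hWx]
    simp only [coeff_add, coeff_C_mul, coeff_X_pow, coeff_X, coeff_C, mul_ite, mul_one, mul_zero]
    simp only [eq_comm (a := 1)]
  have hN : (2 * g + 1 : K) ≠ 0 := by
    have : ((2 * g + 1 : ℕ) : K) ≠ 0 := Nat.cast_ne_zero.2 (by omega)
    simpa using this
  have hβ : β = 0 := by
    have h10 := hco (2 * g)
    rw [hWc, hcD] at h10
    rw [if_neg (by omega), if_neg (by omega), if_neg (by omega), if_pos rfl, if_neg (by omega),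
      if_neg (by omega), if_neg (by omega)] at h10
    simp only [zero_add, mul_zero, add_zero] at h10
    exact (mul_eq_zero.1 h10).resolve_left (mul_ne_zero h4 hN)
  have hc00 : c0 = 0 := by
    have h10 := hco 0
    rw [hWc, hcD] at h10
    rw [if_neg (by omega), if_pos rfl, if_neg (by omega), if_neg (by omega), if_pos rfl,
      if_neg (by omega), if_neg (by omega)] at h10
    rw [hβ] at h10
    simpa using h10.symm
  have hα : α = 0 := by
    have h10 := hco (2 * g + 1)
    rw [hWc, hcD, hc00] at h10
    rw [if_neg (by omega), if_neg (by omega), if_pos rfl, if_neg (by omega)] at h10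
    simp only [zero_add, zero_mul, add_zero] at h10
    exact (mul_eq_zero.1 h10).resolve_left (mul_ne_zero h4 hN)
  have h10 := hco 1
  rw [hWc, hcD, hc00, hα] at h10
  rw [if_pos rfl, if_neg (by omega), if_neg (by omega), if_neg (by omega)] at h10
  simp at h10

end PUC
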